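import Pool.Graph.R_pool_sql_team_22c7b01f.H22.Sof2

set_option autoImplicit false
set_option linter.unusedSectionVars false

/-! Colourings that follow a permutation are determined by few values. -/

namespace Pool.Agent.H7.SE

open Finset Equiv

lemma step_pow {K C : Type} (σ : Perm K) (τ : Perm C) (κ : K → C) (x : K) (n : ℕ)
    (h : ∀ i < n, κ (σ ((σ ^ i) x)) = τ (κ ((σ ^ i) x))) : κ ((σ ^ n) x) = (τ ^ n) (κ x) := by
  induction n with
  | zero => simp
  | succ n ih =>
    rw [pow_succ', Perm.mul_apply, h n (Nat.lt_succ_self n), ih (fun i hi => h i (by omega)),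
      pow_succ', Perm.mul_apply]

section

variable {K : Type} [Fintype K] [DecidableEq K] (σ : Perm K) (N : ℕ)

/-- a piece of an orbit -/
def seg (t : K) : Finset K := (range N).image fun n => (σ ^ n) t

/-- the points with a short orbit -/
def IsShort (k : K) : Prop := ∃ d, 1 ≤ d ∧ d < N ∧ (σ ^ d) k = k

lemma card_seg {t : K} (ht : ¬ IsShort σ N t) : #(seg σ N t) = N := by
  unfold seg
  rw [card_image_of_injOn, card_range]
  have key : ∀ n m : ℕ, n < m → m < N → (σ ^ n) t ≠ (σ ^ m) t := by
    intro n m hnm hm he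
    refine ht ⟨m - n, by omega, by omega, ?_⟩
    have : (σ ^ m) t = (σ ^ n) ((σ ^ (m - n)) t) := by
      rw [← Perm.mul_apply, ← pow_add]; congr 2; omega
    rw [this] at he
    exact ((σ ^ n).injective he).symm
  intro n hn m hm he
  simp only [coe_range, Set.mem_Iio] at hn hm
  rcases lt_trichotomy n m with h | h | h
  · exact absurd he (key n m h hm)
  · exact h
  · exact absurd he.symm (key m n h hn)

/-- the roots -/
lemma exists_roots (hN : 1 ≤ N) : ∃ R : Finset K, N * #R ≤ Fintype.card K ∧
    ∀ k, ¬ IsShort σ N k → ∃ t ∈ R, ∃ e : ℤ, -N ≤ e ∧ e ≤ N ∧ k = (σ ^ e) t := by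
  classical
  set G : Finset (Finset K) := univ.filter fun R => (∀ t ∈ R, ¬ IsShort σ N t) ∧
    (R : Set K).PairwiseDisjoint (seg σ N) with hG
  obtain ⟨R, hR, hmax⟩ := G.exists_max_image card ⟨∅, by simp [hG]⟩
  obtain ⟨hR1, hR2⟩ := (mem_filter.1 hR).2
  refine ⟨R, ?_, fun k hk => ?_⟩
  · have h1 : #(R.biUnion (seg σ N)) = ∑ t ∈ R, #(seg σ N t) := card_biUnion hR2
    rw [sum_congr rfl fun t ht => card_seg σ N (hR1 t ht), sum_const, smul_eq_mul, mul_comm] at h1
    rw [← h1]
    exact card_le_univ _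
  · by_cases hkR : k ∈ R
    · exact ⟨k, hkR, 0, by omega, by omega, by simp⟩
    · have h2 : ¬ ∀ t ∈ R, Disjoint (seg σ N k) (seg σ N t) := by
        intro hd
        have h3 : insert k R ∈ G := by
          refine mem_filter.2 ⟨mem_univ _, ?_, ?_⟩
          · intro t ht
            rcases mem_insert.1 ht with rfl | ht
            · exact hk
            · exact hR1 t ht
          · rw [coe_insert]
            exact hR2.insert fun t ht _ => hd t ht
        have h4 := hmax _ h3
        rw [card_insert_of_notMem hkR] at h4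
        omega
      push Not at h2
      obtain ⟨t, ht, h3⟩ := h2
      obtain ⟨y, hy1, hy2⟩ := not_disjoint_iff.1 h3
      obtain ⟨n, hn, rfl⟩ := mem_image.1 hy1
      obtain ⟨m, hm, he⟩ := mem_image.1 hy2
      rw [mem_range] at hn hm
      refine ⟨t, ht, (m : ℤ) - n, by omega, by omega, ?_⟩
      rw [sub_eq_add_neg, add_comm, zpow_add, Perm.mul_apply, zpow_natCast, he, zpow_neg,
        zpow_natCast]
      simp

end

open Classical in
/-- **few colourings** -/
theorem code {K C : Type} [Fintype K] [Fintype C] [Nonempty C] (σ : Perm K) (τ : Perm C) (N : ℕ)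
    (hN : 1 ≤ N) : ∃ F : Finset (K → C),
      (#F : ℝ) ≤ (Fintype.card C : ℝ) ^ ((Fintype.card K : ℝ) / N) ∧
      ∀ κ : K → C, ∃ κ' ∈ F, #{k | κ k ≠ κ' k} ≤ #{k | IsShort σ N k} +
        (2 * N + 1) * #{k | κ (σ k) ≠ τ (κ k)} := by
  obtain ⟨R, hR, hcov⟩ := exists_roots σ N hN
  choose t ht e he1 he2 he using hcov
  set Φ : (R → C) → K → C := fun ρ k =>
    if h : ¬ IsShort σ N k then (τ ^ (e k h)) (ρ ⟨t k h, ht k h⟩) else Classical.arbitrary C with hΦ
  have hC : (1 : ℝ) ≤ Fintype.card C := by exact_mod_cast Fintype.card_pos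
  refine ⟨univ.image Φ, ?_, fun κ => ⟨Φ fun x => κ x, mem_image_of_mem _ (mem_univ _), ?_⟩⟩
  · have h1 : #(univ.image Φ) ≤ Fintype.card C ^ #R := by
      refine card_image_le.trans ?_
      rw [card_univ, Fintype.card_fun, Fintype.card_coe]
    refine (Nat.cast_le.2 h1).trans ?_
    rw [Nat.cast_pow, ← Real.rpow_natCast]
    refine Real.rpow_le_rpow_of_exponent_le hC ?_
    rw [le_div_iff₀ (by exact_mod_cast hN), mul_comm]
    exact_mod_cast hR
  · have h1 : (univ.filter fun k => κ k ≠ Φ (fun x => κ x) k) ⊆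
        (univ.filter fun k => IsShort σ N k) ∪ (Icc (-N : ℤ) N).biUnion fun f =>
          univ.filter fun k => κ (σ ((σ ^ f) k)) ≠ τ (κ ((σ ^ f) k)) := by
      intro k hk
      by_contra hcon
      simp only [mem_union, mem_filter, mem_univ, true_and, mem_biUnion, mem_Icc, not_or,
        not_exists, not_and, not_not] at hcon
      obtain ⟨hs, hb⟩ := hcon
      refine (mem_filter.1 hk).2 ?_
      have hs' : ¬ IsShort σ N k := hs
      simp only [hΦ]
      rw [dif_pos hs']
      have hk0 := he k hs'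
      have h1' := he1 k hs'
      have h2' := he2 k hs'
      set f := e k hs' with hf
      set u := t k hs' with hu
      obtain ⟨n, hn | hn⟩ := Int.eq_nat_or_neg f
      · rw [hn] at hk0 h1' h2' ⊢
        rw [zpow_natCast] at hk0 ⊢
        conv_lhs => rw [hk0]
        refine step_pow σ τ κ u n fun i hi => ?_
        have h3 := hb ((i : ℤ) - n) ⟨by omega, by omega⟩
        have h4 : (σ ^ ((i : ℤ) - n)) k = (σ ^ i) u := by
          conv_lhs => rw [hk0]
          rw [← Perm.mul_apply, ← zpow_natCast σ n, ← zpow_add, sub_add_cancel, zpow_natCast]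
        rw [h4] at h3
        exact h3
      · rw [hn] at hk0 h1' h2' ⊢
        have h5 : u = (σ ^ n) k := by
          rw [hk0, ← Perm.mul_apply, ← zpow_natCast, ← zpow_add]; simp
        have h6 : κ u = (τ ^ n) (κ k) := by
          rw [h5]
          refine step_pow σ τ κ k n fun i hi => ?_
          have h3 := hb i ⟨by omega, by omega⟩
          rwa [zpow_natCast] at h3
        rw [h6, zpow_neg, zpow_natCast]
        simp
    refine (card_le_card h1).trans ((card_union_le _ _).trans (Nat.add_le_add_left ?_ _))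
    refine card_biUnion_le.trans ?_
    have h2 : ∀ f ∈ Icc (-N : ℤ) N, #(univ.filter fun k => κ (σ ((σ ^ f) k)) ≠ τ (κ ((σ ^ f) k))) ≤
        #{k | κ (σ k) ≠ τ (κ k)} := by
      intro f _
      refine le_of_eq (card_equiv (σ ^ f) fun k => ?_)
      simp
    refine (sum_le_card_nsmul _ _ _ h2).trans (le_of_eq ?_)
    rw [Int.card_Icc, smul_eq_mul]
    congr 1
    omega

end Pool.Agent.H7.SE
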