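import Mathlib

set_option autoImplicit false

/-! Sofic approximations, shifts of finite type and sofic entropy. -/

namespace Pool.Agent.H7.SE

open Filter Topology

/-- a sofic approximation of `G` -/
structure Approx (G : Type) [Group G] where
  /-- the finite sets -/
  K : ℕ → Type
  fin : ∀ n, Finite (K n)
  /-- the maps to the symmetric groups -/
  π : ∀ n, G → Equiv.Perm (K n)
  mul : ∀ s t : G, Tendsto (fun n =>
    (Set.ncard {k : K n | π n (s * t) k = π n s (π n t k)} : ℝ) / Nat.card (K n)) atTop (𝓝 1)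
  free : ∀ s : G, s ≠ 1 → Tendsto (fun n =>
    (Set.ncard {k : K n | π n s k ≠ k} : ℝ) / Nat.card (K n)) atTop (𝓝 1)

/-- `X` is given by a finite set of forbidden patterns; `(t x) s = x (t⁻¹ s)` -/
def IsSFT {G A : Type} [Group G] (X : Set (G → A)) : Prop :=
  ∃ P : Set (Σ F : Finset G, (F → A)), P.Finite ∧
    X = {x | ∀ t : G, ∀ q ∈ P, (fun s : q.1 => x (t⁻¹ * s)) ≠ q.2}

/-- the microstates `Ω_n(F, δ)` -/
def Om {G A : Type} [Group G] (S : Approx G) (X : Set (G → A)) (n : ℕ) (F : Finset G) (δ : ℝ) :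
    Set (S.K n → A) :=
  {ω | (1 - δ) * Nat.card (S.K n) ≤
    (Set.ncard {k : S.K n | ∃ x ∈ X, ∀ s ∈ F, ω (S.π n s⁻¹ k) = x s} : ℝ)}

open Classical in
/-- sofic topological entropy `h_Σ(X)`, with `log 0 = -∞` -/
noncomputable def ent {G A : Type} [Group G] (S : Approx G) (X : Set (G → A)) : EReal :=
  ⨅ F : Finset G, ⨅ δ : ℝ, ⨅ _ : 0 < δ, limsup (fun n => if Om S X n F δ = ∅ then (⊥ : EReal) else
    ((Real.log (Om S X n F δ).ncard / Nat.card (S.K n) : ℝ) : EReal)) atTop

open Classical in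
/-- the same with `liminf` in place of `limsup` -/
noncomputable def entInf {G A : Type} [Group G] (S : Approx G) (X : Set (G → A)) : EReal :=
  ⨅ F : Finset G, ⨅ δ : ℝ, ⨅ _ : 0 < δ, liminf (fun n => if Om S X n F δ = ∅ then (⊥ : EReal) else
    ((Real.log (Om S X n F δ).ncard / Nat.card (S.K n) : ℝ) : EReal)) atTop

end Pool.Agent.H7.SE
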