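import Pool.Agent.H7.SE.Defs
import Pool.Agent.H7.SE.Code

set_option autoImplicit false
set_option linter.unusedSectionVars false

/-! Shifts of finite type with independently prescribed sofic entropies. -/

namespace Pool.Agent.H7.SE

open Filter Topology


open Finset Equiv Pool.Agent.H22.Sof

lemma nc {K : Type} [Fintype K] (P : K → Prop) [DecidablePred P] :
    Set.ncard {k | P k} = #{k | P k} := by
  rw [← Set.ncard_coe_finset, coe_filter]; simp

variable {r : ℕ} {P : Type} [Fintype P] [DecidableEq P] (M : P → ℕ) [∀ p, NeZero (M p)] (w : P → ℝ)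

/-- the number of copies -/
noncomputable def nu (n : ℕ) (p : P) : ℕ := ⌊w p / M p * n⌋₊

/-- the finite sets -/
abbrev KK (n : ℕ) := Σ p : P, Fin (nu M w n p) × ZMod (M p)

/-- the action of the free group -/
noncomputable def act (s : ∀ m : ℕ, Fin r → Perm (Fin m)) (n : ℕ) (g : FreeGroup (Fin r)) :
    Perm (KK M w n) :=
  Equiv.sigmaCongrRight fun p => prodCongr (FreeGroup.lift (s (nu M w n p)) g)
    (FreeGroup.lift (fun _ : Fin r => (Equiv.addRight (-1) : Perm (ZMod (M p)))) g)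

variable {M w}

lemma act_mul (s : ∀ m : ℕ, Fin r → Perm (Fin m)) (n : ℕ) (g h : FreeGroup (Fin r))
    (k : KK M w n) : act M w s n (g * h) k = act M w s n g (act M w s n h k) := by
  rcases k with ⟨p, k, z⟩; simp [act]

lemma act_one (s : ∀ m : ℕ, Fin r → Perm (Fin m)) (n : ℕ) (k : KK M w n) :
    act M w s n 1 k = k := by
  rcases k with ⟨p, k, z⟩; simp [act]

lemma act_i (s : ∀ m : ℕ, Fin r → Perm (Fin m)) (n : ℕ) (i : Fin r) (p : P)
    (k : Fin (nu M w n p)) (z : ZMod (M p)) :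
    act M w s n (FreeGroup.of i)⁻¹ ⟨p, (k, z)⟩ = ⟨p, ((s _ i)⁻¹ k, z + 1)⟩ := by
  simp [act, Perm.inv_def]

lemma split (n : ℕ) (Q : KK M w n → Prop) [DecidablePred Q] :
    (#{k | Q k} : ℝ) = ∑ p, ∑ z, (#{k : Fin (nu M w n p) | Q ⟨p, (k, z)⟩} : ℝ) := by
  simp only [card_filter, Fintype.sum_sigma, Fintype.sum_prod_type_right]
  push_cast
  rfl

lemma cardK (n : ℕ) : (Nat.card (KK M w n) : ℝ) = ∑ p, (nu M w n p : ℝ) * M p := by
  rw [Nat.card_eq_fintype_card, Fintype.card_sigma]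
  push_cast
  refine sum_congr rfl fun p _ => ?_
  rw [Fintype.card_prod, Fintype.card_fin, ZMod.card]
  push_cast
  rfl

lemma Mpos (p : P) : (0 : ℝ) < M p := by exact_mod_cast Nat.pos_of_ne_zero (NeZero.ne (M p))

lemma nu_div (hw : ∀ p, 0 < w p) (p : P) :
    Tendsto (fun n : ℕ => (nu M w n p : ℝ) / n) atTop (𝓝 (w p / M p)) :=
  (tendsto_nat_floor_mul_div_atTop (div_pos (hw p) (Mpos p)).le).comp tendsto_natCast_atTop_atTop

lemma nu_lim (hw : ∀ p, 0 < w p) (p : P) : Tendsto (fun n => nu M w n p) atTop atTop :=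
  tendsto_nat_floor_atTop.comp
    (tendsto_natCast_atTop_atTop.const_mul_atTop (div_pos (hw p) (Mpos p)))

lemma lin_lim (hw : ∀ p, 0 < w p) (v : P → ℝ) :
    Tendsto (fun n : ℕ => (∑ p, (nu M w n p : ℝ) * (M p * v p)) / n) atTop
      (𝓝 (∑ p, w p * v p)) := by
  have h : Tendsto (fun n : ℕ => ∑ p, ((nu M w n p : ℝ) / n) * (M p * v p)) atTop
      (𝓝 (∑ p, w p / M p * (M p * v p))) :=
    tendsto_finsetSum _ fun p _ => (nu_div hw p).mul_const _
  have e : ∑ p, w p / M p * (M p * v p) = ∑ p, w p * v p :=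
    sum_congr rfl fun p _ => by have := (Mpos (M := M) p).ne'; field_simp
  rw [e] at h
  refine h.congr fun n => ?_
  rw [sum_div]
  exact sum_congr rfl fun p _ => by ring

lemma card_lim (hw : ∀ p, 0 < w p) (h1 : ∑ p, w p = 1) :
    Tendsto (fun n : ℕ => (Nat.card (KK M w n) : ℝ) / n) atTop (𝓝 1) := by
  have h := lin_lim (M := M) hw (fun _ => 1)
  simp only [mul_one] at h
  rw [h1] at h
  refine h.congr fun n => ?_
  rw [cardK]

lemma card_pos' (hw : ∀ p, 0 < w p) (h1 : ∑ p, w p = 1) :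
    ∀ᶠ n in atTop, (0 : ℝ) < Nat.card (KK M w n) := by
  filter_upwards [(card_lim (M := M) hw h1).eventually (lt_mem_nhds one_pos)] with n hn
  by_contra h
  have : (Nat.card (KK M w n) : ℝ) = 0 := le_antisymm (not_lt.1 h) (by positivity)
  rw [this, zero_div] at hn
  exact lt_irrefl _ hn

lemma val_lim (hw : ∀ p, 0 < w p) (h1 : ∑ p, w p = 1) (v : P → ℝ) :
    Tendsto (fun n : ℕ => (∑ p, (nu M w n p : ℝ) * (M p * v p)) / Nat.card (KK M w n)) atTop
      (𝓝 (∑ p, w p * v p)) := by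
  have h := (lin_lim (M := M) hw v).div (card_lim (M := M) hw h1) one_ne_zero
  rw [div_one] at h
  refine h.congr' ?_
  filter_upwards [eventually_gt_atTop 0] with n hn
  have n0 : (n : ℝ) ≠ 0 := by exact_mod_cast hn.ne'
  exact div_div_div_cancel_right₀ n0 _ _

lemma card_top (hw : ∀ p, 0 < w p) (h1 : ∑ p, w p = 1) :
    Tendsto (fun n : ℕ => (Nat.card (KK M w n) : ℝ)) atTop atTop := by
  have h := (card_lim (M := M) hw h1).pos_mul_atTop one_pos
    (tendsto_natCast_atTop_atTop (R := ℝ))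
  refine h.congr' ?_
  filter_upwards [eventually_gt_atTop 0] with n hn
  have n0 : (n : ℝ) ≠ 0 := by exact_mod_cast hn.ne'
  field_simp

lemma fix_le (hw : ∀ p, 0 < w p) (s : ∀ m : ℕ, Fin r → Perm (Fin m))
    (hs : ∀ g : FreeGroup (Fin r), g ≠ 1 → ∀ θ : ℝ, 0 < θ → ∀ᶠ m in atTop,
      (#{k | FreeGroup.lift (s m) g k = k} : ℝ) ≤ θ * m) (g : FreeGroup (Fin r)) (hg : g ≠ 1)
    (θ : ℝ) (hθ : 0 < θ) :
    ∀ᶠ n in atTop, (#{k : KK M w n | act M w s n g k = k} : ℝ) ≤ θ * Nat.card (KK M w n) := by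
  have h : ∀ᶠ n in atTop, ∀ p : P, (#{k | FreeGroup.lift (s (nu M w n p)) g k = k} : ℝ) ≤
      θ * nu M w n p :=
    eventually_all.2 fun p => (nu_lim hw p).eventually (hs g hg θ hθ)
  filter_upwards [h] with n hn
  rw [split, cardK, mul_sum]
  refine sum_le_sum fun p _ => ?_
  calc ∑ z : ZMod (M p), (#{k : Fin (nu M w n p) | act M w s n g ⟨p, (k, z)⟩ = ⟨p, (k, z)⟩} : ℝ) ≤
      ∑ z : ZMod (M p), θ * nu M w n p := by
        refine sum_le_sum fun z _ => le_trans (Nat.cast_le.2 (card_le_card fun k hk => ?_)) (hn p)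
        simp only [mem_filter, mem_univ, true_and, act, Equiv.sigmaCongrRight_apply,
          Sigma.mk.injEq, heq_eq_eq, prodCongr_apply, Prod.map_apply, Prod.mk.injEq] at hk ⊢
        exact hk.1
    _ = θ * (nu M w n p * M p) := by
        rw [sum_const, card_univ, ZMod.card, nsmul_eq_mul]; ring

variable (M w)

/-- the sofic approximation -/
noncomputable def appr (s : ∀ m : ℕ, Fin r → Perm (Fin m)) (hw : ∀ p, 0 < w p)
    (h1 : ∑ p, w p = 1)
    (hs : ∀ g : FreeGroup (Fin r), g ≠ 1 → ∀ θ : ℝ, 0 < θ → ∀ᶠ m in atTop,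
      (#{k | FreeGroup.lift (s m) g k = k} : ℝ) ≤ θ * m) : Approx (FreeGroup (Fin r)) where
  K := KK M w
  fin := inferInstance
  π := act M w s
  mul g h := by
    refine tendsto_const_nhds.congr' ?_
    filter_upwards [card_pos' (M := M) hw h1] with n hn
    simp only [act_mul, Set.ofPred_true, Set.ncard_univ]
    rw [div_self hn.ne']
  free g hg := by
    refine Metric.tendsto_nhds.2 fun θ hθ => ?_
    filter_upwards [fix_le (M := M) hw s hs g hg (θ / 2) (by positivity),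
      card_pos' (M := M) hw h1] with n a1 hn
    have e := card_filter_add_card_filter_not (s := univ) (fun k => act M w s n g k = k)
    rw [card_univ, ← Nat.card_eq_fintype_card] at e
    have e' := congrArg (Nat.cast (R := ℝ)) e
    rw [Nat.cast_add] at e'
    rw [nc, Real.dist_eq, abs_lt, lt_sub_iff_add_lt, sub_lt_iff_lt_add,
      lt_div_iff₀ hn, div_lt_iff₀ hn]
    have d1 := Nat.cast_nonneg (α := ℝ) #{k | act M w s n g k = k}
    have : 0 < θ * Nat.card (KK M w n) := by positivity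
    constructor <;> nlinarith

variable {M w} {C : Type} [Fintype C] [DecidableEq C]

/-- colours change by `τ` along the generators, labels are free -/
def XX (r : ℕ) (τ : C → C) (a : C → ℕ) : Set (FreeGroup (Fin r) → Σ c : C, Fin (a c)) :=
  {x | ∀ g i, (x (g * FreeGroup.of i)).1 = τ (x g).1}

lemma sft (r : ℕ) (τ : C → C) (a : C → ℕ) : IsSFT (XX r τ a) := by
  classical
  refine ⟨⋃ i : Fin r, Sigma.mk {1, FreeGroup.of i} ''
    {q | (q ⟨FreeGroup.of i, by simp⟩).1 ≠ τ (q ⟨1, by simp⟩).1},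
    Set.finite_iUnion fun i => (Set.toFinite _).image _, Set.ext fun x => ⟨fun h t q hq => ?_, ?_⟩⟩
  · obtain ⟨i, q, hq', rfl⟩ := Set.mem_iUnion.1 hq
    intro e
    have e' : (fun s : ({1, FreeGroup.of i} : Finset (FreeGroup (Fin r))) => x (t⁻¹ * s)) = q := e
    refine hq' ?_
    rw [← e']
    simpa using h t⁻¹ i
  · intro h g i
    by_contra hn
    exact h g⁻¹ ⟨{1, FreeGroup.of i}, fun s => x (g⁻¹⁻¹ * s)⟩
      (Set.mem_iUnion.2 ⟨i, _, by simpa using hn, rfl⟩) rfl

/-- the map on the colourings of a cycle -/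
def fe (M : P → ℕ) (τ : C → C) (p : P) (x : ZMod (M p) → C) : ZMod (M p) → C := fun z => τ (x (z - 1))

lemma sum_KK (n : ℕ) (F : ∀ p : P, ZMod (M p) → ℝ) :
    ∑ k : KK M w n, F k.1 k.2.2 = ∑ p, (nu M w n p : ℝ) * ∑ z, F p z := by
  rw [Fintype.sum_sigma]
  refine sum_congr rfl fun p _ => ?_
  rw [Fintype.sum_prod_type]
  simp

lemma low_set (s : ∀ m : ℕ, Fin r → Perm (Fin m)) (hw : ∀ p, 0 < w p)
    (h1 : ∑ p, w p = 1)
    (hs : ∀ g : FreeGroup (Fin r), g ≠ 1 → ∀ θ : ℝ, 0 < θ → ∀ᶠ m in atTop,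
      (#{k | FreeGroup.lift (s m) g k = k} : ℝ) ≤ θ * m) (τ : C → C) (a : C → ℕ)
    (x0 : ∀ p, ZMod (M p) → C) (hx0 : ∀ p z, x0 p (z + 1) = τ (x0 p z))
    (F : Finset (FreeGroup (Fin r))) (δ : ℝ) (hδ : 0 < δ) (n : ℕ) :
    ∏ k : KK M w n, a (x0 k.1 k.2.2) ≤ (Om (appr M w s hw h1 hs) (XX r τ a) n F δ).ncard := by
  have hi : Function.Injective fun (u : ∀ k : KK M w n, Fin (a (x0 k.1 k.2.2))) (k : KK M w n) =>
      (⟨x0 k.1 k.2.2, u k⟩ : Σ c : C, Fin (a c)) := fun u u' h =>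
    funext fun k => by simpa using congrFun h k
  have := Set.ncard_range_of_injective hi
  rw [Nat.card_pi] at this
  simp only [Nat.card_eq_fintype_card, Fintype.card_fin] at this
  rw [← this]
  refine Set.ncard_le_ncard ?_ (Set.toFinite (α := KK M w n → Σ c : C, Fin (a c)) _)
  rintro _ ⟨u, rfl⟩
  have h2 : {k : KK M w n | ∃ x ∈ XX r τ a, ∀ g ∈ F,
      (⟨x0 (act M w s n g⁻¹ k).1 (act M w s n g⁻¹ k).2.2, u (act M w s n g⁻¹ k)⟩ :
        Σ c : C, Fin (a c)) = x g} = Set.univ := by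
    refine Set.eq_univ_of_forall fun k => ⟨_, fun g i => ?_, fun _ _ => rfl⟩
    simp only
    rw [mul_inv_rev, act_mul]
    rcases act M w s n g⁻¹ k with ⟨p, k, z⟩
    rw [act_i]
    exact hx0 p z
  refine le_trans ?_ ((Nat.cast_le (α := ℝ)).2 (congrArg Set.ncard h2).ge)
  rw [Set.ncard_univ]
  exact mul_le_of_le_one_left (by positivity) (by linarith)

lemma nu_ge (hw : ∀ p, 0 < w p) (h1 : ∑ p, w p = 1) : ∃ c : ℝ, 0 < c ∧ ∀ᶠ n in atTop, ∀ p : P,
    c * Nat.card (KK M w n) ≤ nu M w n p := by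
  have hc : ∀ᶠ c in 𝓝[>] (0 : ℝ), ∀ p : P, c < w p / M p :=
    eventually_all.2 fun p => mem_nhdsWithin_of_mem_nhds
      (Iio_mem_nhds (div_pos (hw p) (Mpos p)))
  obtain ⟨c, hc1, hc0⟩ := (hc.and self_mem_nhdsWithin).exists
  refine ⟨c, hc0, eventually_all.2 fun p => ?_⟩
  have h2 := (nu_div (M := M) hw p).div (card_lim (M := M) hw h1) one_ne_zero
  rw [div_one] at h2
  filter_upwards [h2.eventually (lt_mem_nhds (hc1 p)), card_pos' (M := M) hw h1,
    eventually_gt_atTop 0] with n hn hk hn0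
  have n0 : (n : ℝ) ≠ 0 := by exact_mod_cast hn0.ne'
  have hn' : c < (nu M w n p : ℝ) / n / ((Nat.card (KK M w n) : ℝ) / n) := hn
  rw [div_div_div_cancel_right₀ n0, lt_div_iff₀ hk] at hn'
  exact hn'.le

/-- microstates are close to exact ones in their colours -/
lemma near (hr : 2 ≤ r) (s : ∀ m : ℕ, Fin r → Perm (Fin m)) (hw : ∀ p, 0 < w p)
    (h1 : ∑ p, w p = 1)
    (hs : ∀ g : FreeGroup (Fin r), g ≠ 1 → ∀ θ : ℝ, 0 < θ → ∀ᶠ m in atTop,
      (#{k | FreeGroup.lift (s m) g k = k} : ℝ) ≤ θ * m) (τ : C → C) (a : C → ℕ)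
    (hE : ∀ ε : ℝ, 0 < ε → ∃ δ : ℝ, 0 < δ ∧ ∀ᶠ m in atTop, ∀ p : P, Exp (fe M τ p) ε δ m (s m))
    (ε : ℝ) (hε : 0 < ε) : ∃ δ : ℝ, 0 < δ ∧ ∀ᶠ n in atTop,
      ∀ ω ∈ Om (appr M w s hw h1 hs) (XX r τ a) n (insert 1 (univ.image FreeGroup.of)) δ,
      ∃ x : ∀ p, ZMod (M p) → C, (∀ p z, x p (z + 1) = τ (x p z)) ∧
        (#{k : KK M w n | (ω k).1 ≠ x k.1 k.2.2} : ℝ) ≤ ε * Nat.card (KK M w n) := by
  obtain ⟨δ1, δ0, hexp⟩ := hE (min ε (1 / 4)) (lt_min hε (by norm_num))
  obtain ⟨c, hc, hcn⟩ := nu_ge (M := M) hw h1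
  refine ⟨min δ1 (1 / 4) * c, mul_pos (lt_min δ0 (by norm_num)) hc, ?_⟩
  have hexp' : ∀ᶠ n in atTop, ∀ p : P, Exp (fe M τ p) (min ε (1 / 4)) δ1 (nu M w n p)
      (s (nu M w n p)) := eventually_all.2 fun p => by
    filter_upwards [(nu_lim (M := M) hw p).eventually hexp] with n hn
    exact hn p
  filter_upwards [hcn, hexp', card_pos' (M := M) hw h1] with n hn he hk ω hω
  change (1 - min δ1 (1 / 4) * c) * (Nat.card (KK M w n) : ℝ) ≤ _ at hω
  have hb : ∀ i, (#{k : KK M w n | (ω (act M w s n (FreeGroup.of i)⁻¹ k)).1 ≠ τ (ω k).1} : ℝ) ≤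
      min δ1 (1 / 4) * c * Nat.card (KK M w n) := fun i => by
    have e := card_filter_add_card_filter_not (s := univ)
      (fun k : KK M w n => (ω (act M w s n (FreeGroup.of i)⁻¹ k)).1 = τ (ω k).1)
    rw [card_univ, ← Nat.card_eq_fintype_card] at e
    have e' := congrArg (Nat.cast (R := ℝ)) e
    rw [Nat.cast_add] at e'
    have : (1 - min δ1 (1 / 4) * c) * (Nat.card (KK M w n) : ℝ) ≤ #{k : KK M w n |
        (ω (act M w s n (FreeGroup.of i)⁻¹ k)).1 = τ (ω k).1} := by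
      rw [← nc]
      refine hω.trans (Nat.cast_le.2 (Set.ncard_le_ncard ?_ (Set.toFinite (α := KK M w n) _)))
      rintro (k : KK M w n) ⟨x, hx, hk⟩
      have b1 : ω (act M w s n 1⁻¹ k) = x 1 := hk 1 (by simp)
      have b2 : ω (act M w s n (FreeGroup.of i)⁻¹ k) = x (FreeGroup.of i) := hk _ (by simp)
      rw [inv_one, act_one] at b1
      show (ω (act M w s n (FreeGroup.of i)⁻¹ k)).1 = τ (ω k).1
      rw [b1, b2]; simpa using hx 1 i
    linarith
  simp only [split, act_i] at hb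
  have hd : ∀ p : P, ∃ x : ZMod (M p) → C, (∀ z, x (z + 1) = τ (x z)) ∧
      (#{k : Fin (nu M w n p) | (fun z => (ω ⟨p, (k, z)⟩).1) ≠ x} : ℝ) ≤ ε * nu M w n p := by
    intro p
    have hm0 : (0 : ℝ) < nu M w n p := lt_of_lt_of_le (by positivity) (hn p)
    have hbp : ∀ i, (#{k : Fin (nu M w n p) | (fun z => (ω ⟨p, ((s _ i)⁻¹ k, z)⟩).1) ≠
        fe M τ p (fun z => (ω ⟨p, (k, z)⟩).1)} : ℝ) ≤ min δ1 (1 / 4) * nu M w n p := by
      intro i
      calc (#{k : Fin (nu M w n p) | (fun z => (ω ⟨p, ((s _ i)⁻¹ k, z)⟩).1) ≠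
        fe M τ p (fun z => (ω ⟨p, (k, z)⟩).1)} : ℝ) ≤
          ∑ z : ZMod (M p), (#{k : Fin (nu M w n p) | (ω ⟨p, ((s _ i)⁻¹ k, z + 1)⟩).1 ≠
            τ (ω ⟨p, (k, z)⟩).1} : ℝ) := by
            rw [← Nat.cast_sum, Nat.cast_le]
            refine le_trans (card_le_card fun k hk => ?_) card_biUnion_le
            simp only [mem_filter, mem_univ, true_and, mem_biUnion] at hk ⊢
            by_contra hcon
            push Not at hcon
            refine hk (funext fun z => ?_)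
            have := hcon (z - 1)
            rw [sub_add_cancel] at this
            exact this
        _ ≤ ∑ q : P, ∑ z : ZMod (M q), (#{k : Fin (nu M w n q) |
            (ω ⟨q, ((s _ i)⁻¹ k, z + 1)⟩).1 ≠ τ (ω ⟨q, (k, z)⟩).1} : ℝ) :=
            single_le_sum (f := fun q : P => ∑ z : ZMod (M q), (#{k : Fin (nu M w n q) |
              (ω ⟨q, ((s _ i)⁻¹ k, z + 1)⟩).1 ≠ τ (ω ⟨q, (k, z)⟩).1} : ℝ))
              (fun q _ => sum_nonneg fun z _ => Nat.cast_nonneg _) (mem_univ p)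
        _ ≤ min δ1 (1 / 4) * c * Nat.card (KK M w n) := hb i
        _ ≤ _ := by
            rw [mul_assoc]
            exact mul_le_mul_of_nonneg_left (hn p) (lt_min δ0 (by norm_num)).le
    obtain ⟨x, hx⟩ := he p (fun k z => (ω ⟨p, (k, z)⟩).1) fun i =>
      (hbp i).trans (mul_le_mul_of_nonneg_right (min_le_left _ _) hm0.le)
    refine ⟨x, ?_, hx.trans (mul_le_mul_of_nonneg_right (min_le_left _ _) hm0.le)⟩
    have hfx : fe M τ p x = x := by
      by_contra hne
      set i : Fin r := ⟨0, by omega⟩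
      have q1 : #{k : Fin (nu M w n p) | (fun z => (ω ⟨p, ((s _ i)⁻¹ k, z)⟩).1) ≠ x} =
          #{k : Fin (nu M w n p) | (fun z => (ω ⟨p, (k, z)⟩).1) ≠ x} :=
        card_equiv (s _ i)⁻¹ fun k => by simp
      have q2 : (univ : Finset (Fin (nu M w n p))) ⊆
          ((univ.filter fun k => (fun z => (ω ⟨p, ((s _ i)⁻¹ k, z)⟩).1) ≠ x) ∪
          (univ.filter fun k => (fun z => (ω ⟨p, (k, z)⟩).1) ≠ x)) ∪
          (univ.filter fun k => (fun z => (ω ⟨p, ((s _ i)⁻¹ k, z)⟩).1) ≠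
            fe M τ p (fun z => (ω ⟨p, (k, z)⟩).1)) := fun k _ => by
        simp only [mem_union, mem_filter, mem_univ, true_and]
        by_contra hcon
        push Not at hcon
        obtain ⟨⟨e1, e2⟩, e3⟩ := hcon
        rw [e1, e2] at e3
        exact hne e3.symm
      have q3 := (card_le_card q2).trans ((card_union_le _ _).trans
        (Nat.add_le_add_right (card_union_le _ _) _))
      rw [q1, card_univ, Fintype.card_fin] at q3
      have q4 := (Nat.cast_le (α := ℝ)).2 q3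
      push_cast at q4
      have q5 := hbp i
      have q6 := mul_le_mul_of_nonneg_right (min_le_right δ1 (1 / 4)) hm0.le
      have q7 := mul_le_mul_of_nonneg_right (min_le_right ε (1 / 4)) hm0.le
      linarith
    intro z
    conv_lhs => rw [← hfx]
    unfold fe
    rw [add_sub_cancel_right]
  choose x hx1 hx2 using hd
  refine ⟨x, hx1, ?_⟩
  rw [split, cardK, mul_sum]
  refine sum_le_sum fun p _ => ?_
  calc ∑ z : ZMod (M p), (#{k : Fin (nu M w n p) | (ω ⟨p, (k, z)⟩).1 ≠ x p z} : ℝ) ≤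
      ∑ z : ZMod (M p), ε * nu M w n p := by
        refine sum_le_sum fun z _ => le_trans (Nat.cast_le.2 (card_le_card fun k hk => ?_)) (hx2 p)
        simp only [mem_filter, mem_univ, true_and] at hk ⊢
        exact fun h => hk (congrFun h z)
    _ = ε * (nu M w n p * M p) := by
        rw [sum_const, card_univ, ZMod.card, nsmul_eq_mul]; ring

lemma log_prod_KK (a : C → ℕ) (ha : ∀ c, 1 ≤ a c) (x : ∀ p, ZMod (M p) → C) (n : ℕ) :
    Real.log (∏ k : KK M w n, (a (x k.1 k.2.2) : ℝ)) =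
      ∑ p, (nu M w n p : ℝ) * ∑ z, Real.log (a (x p z)) := by
  rw [Real.log_prod (fun k _ => by
    have := ha (x k.1 k.2.2)
    have : (0 : ℝ) < a (x k.1 k.2.2) := by exact_mod_cast this
    exact this.ne')]
  exact sum_KK n fun p z => Real.log (a (x p z))

lemma card_fib (a : C → ℕ) (c : C) : #(univ.filter fun y : Σ c : C, Fin (a c) => y.1 = c) ≤ a c := by
  have h : (univ.filter fun y : Σ c : C, Fin (a c) => y.1 = c) ⊆ univ.image (Sigma.mk c) := by
    rintro ⟨c', u⟩ h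
    simp only [mem_filter, mem_univ, true_and] at h
    subst h
    exact mem_image.2 ⟨u, mem_univ _, rfl⟩
  exact (card_le_card h).trans (card_image_le.trans (by simp))

/-- **the entropy of the subshift** -/
theorem value (hr : 2 ≤ r) (s : ∀ m : ℕ, Fin r → Perm (Fin m)) (hw : ∀ p, 0 < w p)
    (h1 : ∑ p, w p = 1)
    (hs : ∀ g : FreeGroup (Fin r), g ≠ 1 → ∀ θ : ℝ, 0 < θ → ∀ᶠ m in atTop,
      (#{k | FreeGroup.lift (s m) g k = k} : ℝ) ≤ θ * m) (τ : C → C) (a : C → ℕ)
    (ha : ∀ c, 1 ≤ a c)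
    (hE : ∀ ε : ℝ, 0 < ε → ∃ δ : ℝ, 0 < δ ∧ ∀ᶠ m in atTop, ∀ p : P, Exp (fe M τ p) ε δ m (s m))
    (v : P → ℝ) (x0 : ∀ p, ZMod (M p) → C) (hx0 : ∀ p z, x0 p (z + 1) = τ (x0 p z))
    (hv0 : ∀ p, ∑ z, Real.log (a (x0 p z)) = M p * v p)
    (hv : ∀ (p : P) (x : ZMod (M p) → C), (∀ z, x (z + 1) = τ (x z)) →
      ∑ z, Real.log (a (x z)) ≤ M p * v p) :
    ent (appr M w s hw h1 hs) (XX r τ a) = ((∑ p, w p * v p : ℝ) : EReal) := by
  classical
  set V : ℝ := ∑ p, w p * v p with hV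
  have lim := val_lim (M := M) hw h1 v
  have low := fun F δ hδ n => low_set (M := M) s hw h1 hs τ a x0 hx0 F δ hδ n
  have hprod : ∀ n, 0 < ∏ k : KK M w n, a (x0 k.1 k.2.2) := fun n =>
    prod_pos fun k _ => ha _
  have pos : ∀ F δ, 0 < δ → ∀ n, 0 < (Om (appr M w s hw h1 hs) (XX r τ a) n F δ).ncard :=
    fun F δ hδ n => (hprod n).trans_le (low F δ hδ n)
  have ne : ∀ F δ, 0 < δ → ∀ n, Om (appr M w s hw h1 hs) (XX r τ a) n F δ ≠ ∅ :=
    fun F δ hδ n h => by
      have := pos F δ hδ n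
      rw [h] at this; simp at this
  refine le_antisymm (EReal.le_of_forall_lt_iff_le.1 fun z hz => ?_)
    (EReal.ge_of_forall_gt_iff_ge.1 fun z hz => ?_)
  swap
  · refine le_iInf fun F => le_iInf fun δ => le_iInf fun hδ =>
      le_limsup_of_frequently_le (Eventually.frequently ?_)
    filter_upwards [lim.eventually (lt_mem_nhds (EReal.coe_lt_coe_iff.1 hz)),
      card_pos' (M := M) hw h1] with n hn hk
    rw [if_neg (ne F δ hδ n), EReal.coe_le_coe_iff]
    refine hn.le.trans ?_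
    change _ ≤ _ / (Nat.card (KK M w n) : ℝ)
    refine div_le_div_of_nonneg_right ?_ hk.le
    have h2 := Real.log_le_log (by exact_mod_cast hprod n)
      ((Nat.cast_le (α := ℝ)).2 (low F δ hδ n))
    rw [Nat.cast_prod, log_prod_KK a ha] at h2
    simp_rw [hv0] at h2
    exact h2
  have hz' := EReal.coe_lt_coe_iff.1 hz
  set η := (z - V) / 3 with hη
  have η0 : 0 < η := by linarith
  obtain ⟨ε, ε0, hcount⟩ := count (Fintype.card (Σ c : C, Fin (a c))) η η0
  obtain ⟨δ, δ0, hnear⟩ := near (M := M) hr s hw h1 hs τ a hE ε ε0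
  refine iInf_le_of_le (insert 1 (univ.image FreeGroup.of)) (iInf_le_of_le δ (iInf_le_of_le δ0
    (limsup_le_of_le (by isBoundedDefault) ?_)))
  set Dn : ℕ := Fintype.card (∀ p, ZMod (M p) → C) with hDn
  have limD : Tendsto (fun n : ℕ => Real.log Dn / (Nat.card (KK M w n) : ℝ)) atTop (𝓝 0) :=
    (card_top (M := M) hw h1).const_div_atTop _
  filter_upwards [hnear, limD.eventually (gt_mem_nhds η0),
    lim.eventually (gt_mem_nhds (lt_add_of_pos_right _ η0)), card_pos' (M := M) hw h1]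
    with n hn hD hl hk
  set S : (∀ p, ZMod (M p) → C) → KK M w n → Finset (Σ c : C, Fin (a c)) := fun x k =>
    univ.filter fun y => y.1 = x k.1 k.2.2 with hS
  set E : Finset (∀ p, ZMod (M p) → C) := univ.filter fun x => ∀ p z, x p (z + 1) = τ (x p z) with hEd
  have sub : Om (appr M w s hw h1 hs) (XX r τ a) n (insert 1 (univ.image FreeGroup.of)) δ ⊆
      ⋃ x ∈ E, {ω : KK M w n → Σ c : C, Fin (a c) |
        (#{k | ω k ∉ S x k} : ℝ) ≤ ε * Fintype.card (KK M w n)} := by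
    intro ω hω
    obtain ⟨x, hx1, hx2⟩ := hn ω hω
    have h5 : (#{k : KK M w n | ω k ∉ S x k} : ℝ) ≤ ε * Fintype.card (KK M w n) := by
      rw [← Nat.card_eq_fintype_card]
      simpa [hS] using hx2
    refine Set.mem_iUnion₂.2 ⟨x, mem_filter.2 ⟨mem_univ _, hx1⟩, ?_⟩
    refine Set.mem_ofPred_eq.symm ▸ ?_
    convert h5
  have each : ∀ x ∈ E, (({ω : KK M w n → Σ c : C, Fin (a c) |
      (#{k | ω k ∉ S x k} : ℝ) ≤ ε * Fintype.card (KK M w n)} : Set _).ncard : ℝ) ≤
      Real.exp (η * Nat.card (KK M w n)) * Real.exp (∑ p, (nu M w n p : ℝ) * (M p * v p)) := by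
    intro x hx
    refine (Nat.cast_le.2 (nc (K := KK M w n → Σ c : C, Fin (a c)) _).le).trans ?_
    refine (hcount (KK M w n) (Σ c : C, Fin (a c)) (S x) (fun k => (a (x k.1 k.2.2) : ℝ)) le_rfl
      ?_).trans ?_
    · intro k
      refine ⟨by exact_mod_cast ha _, ?_⟩
      exact_mod_cast card_fib a (x k.1 k.2.2)
    · rw [← Nat.card_eq_fintype_card]
      refine mul_le_mul_of_nonneg_left ?_ (Real.exp_pos _).le
      have h3 : (0 : ℝ) < ∏ k : KK M w n, (a (x k.1 k.2.2) : ℝ) :=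
        prod_pos fun k _ => by exact_mod_cast ha _
      rw [← Real.exp_log h3, log_prod_KK a ha]
      refine Real.exp_le_exp.2 (sum_le_sum fun p _ => ?_)
      exact mul_le_mul_of_nonneg_left (hv p (x p) fun z => (mem_filter.1 hx).2 p z)
        (Nat.cast_nonneg _)
  have up : ((Om (appr M w s hw h1 hs) (XX r τ a) n (insert 1 (univ.image FreeGroup.of)) δ).ncard : ℝ) ≤
      Dn * (Real.exp (η * Nat.card (KK M w n)) *
        Real.exp (∑ p, (nu M w n p : ℝ) * (M p * v p))) := by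
    have u1 := (Set.ncard_le_ncard sub (Set.toFinite (α := KK M w n → Σ c : C, Fin (a c)) _)).trans
      (Finset.set_ncard_biUnion_le E _)
    refine ((Nat.cast_le (α := ℝ)).2 u1).trans ?_
    rw [Nat.cast_sum]
    refine (sum_le_card_nsmul _ _ _ each).trans ?_
    rw [nsmul_eq_mul]
    refine mul_le_mul_of_nonneg_right ?_ (by positivity)
    exact_mod_cast (card_le_univ E)
  rw [if_neg (ne _ δ δ0 n), EReal.coe_le_coe_iff]
  change _ / (Nat.card (KK M w n) : ℝ) ≤ _
  have hD0 : (0 : ℝ) < Dn := by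
    have : Nonempty (∀ p, ZMod (M p) → C) := ⟨x0⟩
    exact_mod_cast Fintype.card_pos
  have h4 := Real.log_le_log (by exact_mod_cast pos _ δ δ0 n) up
  rw [Real.log_mul hD0.ne' (by positivity), Real.log_mul (by positivity) (by positivity),
    Real.log_exp, Real.log_exp] at h4
  refine (div_le_div_of_nonneg_right h4 hk.le).trans ?_
  rw [add_div, add_div, mul_div_assoc, div_self hk.ne']
  have : z = V + 3 * η := by rw [hη]; ring
  linarith

lemma entInf_le {G A : Type} [Group G] (S : Approx G) (X : Set (G → A)) : entInf S X ≤ ent S X :=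
  iInf_mono fun _ => iInf_mono fun _ => iInf_mono fun _ => liminf_le_limsup

theorem value_inf (s : ∀ m : ℕ, Fin r → Perm (Fin m)) (hw : ∀ p, 0 < w p)
    (h1 : ∑ p, w p = 1)
    (hs : ∀ g : FreeGroup (Fin r), g ≠ 1 → ∀ θ : ℝ, 0 < θ → ∀ᶠ m in atTop,
      (#{k | FreeGroup.lift (s m) g k = k} : ℝ) ≤ θ * m) (τ : C → C) (a : C → ℕ)
    (ha : ∀ c, 1 ≤ a c)
    (v : P → ℝ) (x0 : ∀ p, ZMod (M p) → C) (hx0 : ∀ p z, x0 p (z + 1) = τ (x0 p z))
    (hv0 : ∀ p, ∑ z, Real.log (a (x0 p z)) = M p * v p) :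
    ((∑ p, w p * v p : ℝ) : EReal) ≤ entInf (appr M w s hw h1 hs) (XX r τ a) := by
  classical
  set V : ℝ := ∑ p, w p * v p with hV
  have lim := val_lim (M := M) hw h1 v
  have low := fun F δ hδ n => low_set (M := M) s hw h1 hs τ a x0 hx0 F δ hδ n
  have hprod : ∀ n, 0 < ∏ k : KK M w n, a (x0 k.1 k.2.2) := fun n =>
    prod_pos fun k _ => ha _
  have pos : ∀ F δ, 0 < δ → ∀ n, 0 < (Om (appr M w s hw h1 hs) (XX r τ a) n F δ).ncard :=
    fun F δ hδ n => (hprod n).trans_le (low F δ hδ n)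
  have ne : ∀ F δ, 0 < δ → ∀ n, Om (appr M w s hw h1 hs) (XX r τ a) n F δ ≠ ∅ :=
    fun F δ hδ n h => by
      have := pos F δ hδ n
      rw [h] at this; simp at this
  refine EReal.ge_of_forall_gt_iff_ge.1 fun z hz => ?_
  refine le_iInf fun F => le_iInf fun δ => le_iInf fun hδ =>
    le_liminf_of_le (by isBoundedDefault) ?_
  filter_upwards [lim.eventually (lt_mem_nhds (EReal.coe_lt_coe_iff.1 hz)),
    card_pos' (M := M) hw h1] with n hn hk
  rw [if_neg (ne F δ hδ n), EReal.coe_le_coe_iff]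
  refine hn.le.trans ?_
  change _ ≤ _ / (Nat.card (KK M w n) : ℝ)
  refine div_le_div_of_nonneg_right ?_ hk.le
  have h2 := Real.log_le_log (by exact_mod_cast hprod n)
    ((Nat.cast_le (α := ℝ)).2 (low F δ hδ n))
  rw [Nat.cast_prod, log_prod_KK a ha] at h2
  simp_rw [hv0] at h2
  exact h2

/-- **no entropy** -/
theorem value_bot (hr : 2 ≤ r) (s : ∀ m : ℕ, Fin r → Perm (Fin m)) (hw : ∀ p, 0 < w p)
    (h1 : ∑ p, w p = 1)
    (hs : ∀ g : FreeGroup (Fin r), g ≠ 1 → ∀ θ : ℝ, 0 < θ → ∀ᶠ m in atTop,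
      (#{k | FreeGroup.lift (s m) g k = k} : ℝ) ≤ θ * m) (τ : C → C) (a : C → ℕ)
    (hE : ∀ ε : ℝ, 0 < ε → ∃ δ : ℝ, 0 < δ ∧ ∀ᶠ m in atTop, ∀ p : P, Exp (fe M τ p) ε δ m (s m))
    (p : P) (hp : ∀ x : ZMod (M p) → C, ¬ ∀ z, x (z + 1) = τ (x z)) :
    ent (appr M w s hw h1 hs) (XX r τ a) = ⊥ := by
  classical
  obtain ⟨δ, δ0, hnear⟩ := near (M := M) hr s hw h1 hs τ a hE 1 one_pos
  refine le_bot_iff.1 (iInf_le_of_le (insert 1 (univ.image FreeGroup.of)) (iInf_le_of_le δ
    (iInf_le_of_le δ0 (limsup_le_of_le (by isBoundedDefault) ?_))))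
  filter_upwards [hnear] with n hn
  rw [if_pos]
  refine Set.eq_empty_of_forall_notMem fun ω hω => ?_
  obtain ⟨x, hx, -⟩ := hn ω hω
  exact hp (x p) (hx p)

/-- expansion for a family of maps at once -/
lemma good_family {I : Type} [Fintype I] [DecidableEq I] [Nonempty I] (D : I → Type)
    [∀ i, Fintype (D i)] [∀ i, DecidableEq (D i)] [∀ i, Nonempty (D i)] (f : ∀ i, D i → D i)
    (hr : 2 ≤ r) : ∃ s : ∀ m : ℕ, Fin r → Perm (Fin m),
    (∀ g : FreeGroup (Fin r), g ≠ 1 → ∀ θ : ℝ, 0 < θ → ∀ᶠ m in atTop,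
      (#{k | FreeGroup.lift (s m) g k = k} : ℝ) ≤ θ * m) ∧
    ∀ ε : ℝ, 0 < ε → ∃ δ : ℝ, 0 < δ ∧ ∀ᶠ m in atTop, ∀ i, Exp (f i) ε δ m (s m) := by
  have : Nonempty (Σ i, D i) := ⟨⟨Classical.arbitrary I, Classical.arbitrary _⟩⟩
  obtain ⟨s, hs, hE⟩ := good (ι := Fin r) (by simpa using hr)
    (fun x : Σ i, D i => (⟨x.1, f x.1 x.2⟩ : Σ i, D i))
  refine ⟨s, hs, fun ε hε => ?_⟩
  obtain ⟨δ, hδ, h⟩ := hE ε hε
  refine ⟨δ, hδ, ?_⟩
  filter_upwards [h] with m hm i d hd
  obtain ⟨x, hx⟩ := hm (fun k => ⟨i, d k⟩) fun j => by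
    refine le_trans (le_of_eq ?_) (hd j)
    simp
  by_cases hxi : x.1 = i
  · obtain ⟨i', y⟩ := x
    simp only at hxi
    subst hxi
    refine ⟨y, le_trans (le_of_eq ?_) hx⟩
    simp
  · refine ⟨Classical.arbitrary _, le_trans (Nat.cast_le.2 (card_le_card fun k _ => ?_)) hx⟩
    simp only [mem_filter, mem_univ, true_and]
    intro h2
    exact hxi (by rw [← h2])

/-! ### the weights of the parts -/

/-- the weights -/
noncomputable def Wt (J : Finset ℕ) (t : ℕ → ℝ) (S : Finset ℕ) : ℝ :=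
  (∏ i ∈ S, t i) * ∏ i ∈ J \ S, (1 - t i)

lemma Wt_sum (J : Finset ℕ) (t : ℕ → ℝ) : ∑ S ∈ J.powerset, Wt J t S = 1 := by
  unfold Wt
  rw [← prod_add]
  simp

lemma Wt_marg (J : Finset ℕ) (t : ℕ → ℝ) {j : ℕ} (hj : j ∈ J) :
    ∑ S ∈ J.powerset, Wt J t S * (if j ∈ S then 1 else 0) = t j := by
  have h := prod_add t (fun i => if i = j then 0 else 1 - t i) J
  have h2 : ∏ i ∈ J, (t i + if i = j then 0 else 1 - t i) = t j := by
    rw [prod_eq_single j]
    · simp
    · intro i _ hi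
      simp [hi]
    · exact fun h => absurd hj h
  rw [h2] at h
  rw [h]
  refine sum_congr rfl fun S hS => ?_
  unfold Wt
  by_cases hjS : j ∈ S
  · rw [if_pos hjS, mul_one]
    congr 1
    refine prod_congr rfl fun i hi => ?_
    rw [if_neg]
    rintro rfl
    exact (mem_sdiff.1 hi).2 hjS
  · rw [if_neg hjS, mul_zero, prod_eq_zero (mem_sdiff.2 ⟨hj, hjS⟩) (by simp), mul_zero]

lemma Wt_nonneg (J : Finset ℕ) (t : ℕ → ℝ) (h0 : ∀ j, 0 ≤ t j) (h1 : ∀ j, t j ≤ 1)
    (S : Finset ℕ) : 0 ≤ Wt J t S :=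
  mul_nonneg (prod_nonneg fun i _ => h0 i) (prod_nonneg fun i _ => sub_nonneg.2 (h1 i))

/-! ### the subshifts -/

/-- the primes of the first kind -/
noncomputable def pq (j : ℕ) : ℕ := Nat.nth Nat.Prime (2 * j)

/-- the primes of the second kind -/
noncomputable def pq' (j : ℕ) : ℕ := Nat.nth Nat.Prime (2 * j + 1)

lemma pq_prime (j : ℕ) : (pq j).Prime := Nat.prime_nth_prime _
lemma pq'_prime (j : ℕ) : (pq' j).Prime := Nat.prime_nth_prime _
instance (j : ℕ) : NeZero (pq j) := ⟨(pq_prime j).ne_zero⟩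
instance (j : ℕ) : NeZero (pq' j) := ⟨(pq'_prime j).ne_zero⟩

/-- the number of points of a part -/
noncomputable def MM (T S : Finset ℕ) : ℕ := (∏ i ∈ S, pq i) * ∏ i ∈ T, pq' i

instance (T S : Finset ℕ) : NeZero (MM T S) :=
  ⟨mul_ne_zero (prod_ne_zero_iff.2 fun i _ => (pq_prime i).ne_zero)
    (prod_ne_zero_iff.2 fun i _ => (pq'_prime i).ne_zero)⟩

lemma dvd_iff (T S : Finset ℕ) (j : ℕ) : pq j ∣ MM T S ↔ j ∈ S := by
  constructor
  · intro h
    rcases (pq_prime j).prime.dvd_or_dvd h with h | h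
    · obtain ⟨i, hi, h2⟩ := (pq_prime j).prime.exists_mem_finset_dvd h
      have h3 : pq j = pq i := (Nat.prime_dvd_prime_iff_eq (pq_prime j) (pq_prime i)).1 h2
      have h4 := Nat.nth_injective Nat.infinite_setOfPred_prime h3
      have : j = i := by omega
      rwa [this]
    · obtain ⟨i, hi, h2⟩ := (pq_prime j).prime.exists_mem_finset_dvd h
      have h3 : pq j = pq' i := (Nat.prime_dvd_prime_iff_eq (pq_prime j) (pq'_prime i)).1 h2
      have h4 := Nat.nth_injective Nat.infinite_setOfPred_prime h3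
      omega
  · intro h
    exact (dvd_prod_of_mem _ h).mul_right _

lemma dvd_iff' (T S : Finset ℕ) (j : ℕ) : pq' j ∣ MM T S ↔ j ∈ T := by
  constructor
  · intro h
    rcases (pq'_prime j).prime.dvd_or_dvd h with h | h
    · obtain ⟨i, hi, h2⟩ := (pq'_prime j).prime.exists_mem_finset_dvd h
      have h3 : pq' j = pq i := (Nat.prime_dvd_prime_iff_eq (pq'_prime j) (pq_prime i)).1 h2
      have h4 := Nat.nth_injective Nat.infinite_setOfPred_prime h3
      omega
    · obtain ⟨i, hi, h2⟩ := (pq'_prime j).prime.exists_mem_finset_dvd h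
      have h3 : pq' j = pq' i := (Nat.prime_dvd_prime_iff_eq (pq'_prime j) (pq'_prime i)).1 h2
      have h4 := Nat.nth_injective Nat.infinite_setOfPred_prime h3
      have : j = i := by omega
      rwa [this]
  · intro h
    exact (dvd_prod_of_mem _ h).mul_left _

/-- the colours -/
abbrev Co (j : ℕ) := Option (ZMod (pq j)) × ZMod (pq' j)

/-- the change of colour -/
noncomputable def ta (j : ℕ) (c : Co j) : Co j := (c.1.map (· + 1), c.2 + 1)

/-- the number of labels -/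
def la (a : ℕ) {j : ℕ} (c : Co j) : ℕ := if c.1.isSome then a else 1

/-- an equivariant colouring -/
noncomputable def x0 (T S : Finset ℕ) (j : ℕ) (hj : j ∈ T) (z : ZMod (MM T S)) : Co j :=
  (if h : j ∈ S then some (ZMod.castHom ((dvd_iff T S j).2 h) (ZMod (pq j)) z) else none,
    ZMod.castHom ((dvd_iff' T S j).2 hj) (ZMod (pq' j)) z)

lemma x0_step (T S : Finset ℕ) (j : ℕ) (hj : j ∈ T) (z : ZMod (MM T S)) :
    x0 T S j hj (z + 1) = ta j (x0 T S j hj z) := by
  unfold x0 ta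
  by_cases h : j ∈ S
  · simp [h, map_add, map_one]
  · simp [h, map_add, map_one]

lemma x_snd (T S : Finset ℕ) (j : ℕ) (x : ZMod (MM T S) → Co j) (hx : ∀ z, x (z + 1) = ta j (x z)) :
    j ∈ T := by
  have h : ∀ n : ℕ, (x n).2 = (x 0).2 + n := by
    intro n
    induction n with
    | zero => simp
    | succ n ih =>
      rw [Nat.cast_succ, hx]
      unfold ta
      simp only
      rw [ih]
      push_cast
      ring
  have h2 := h (MM T S)
  rw [ZMod.natCast_self] at h2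
  have h3 : ((MM T S : ℕ) : ZMod (pq' j)) = 0 := by
    have := h2.symm
    simpa using this
  exact (dvd_iff' T S j).1 ((ZMod.natCast_eq_zero_iff _ _).1 h3)

lemma x_fst (T S : Finset ℕ) (j : ℕ) (x : ZMod (MM T S) → Co j) (hx : ∀ z, x (z + 1) = ta j (x z))
    (z : ZMod (MM T S)) (hz : (x z).1.isSome) : j ∈ S := by
  obtain ⟨u, hu⟩ := Option.isSome_iff_exists.1 hz
  have h : ∀ n : ℕ, (x (z + n)).1 = some (u + n) := by
    intro n
    induction n with
    | zero => simp [hu]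
    | succ n ih =>
      rw [Nat.cast_succ, ← add_assoc, hx]
      unfold ta
      simp only
      rw [ih]
      simp [add_assoc]
  have h2 := h (MM T S)
  rw [ZMod.natCast_self, add_zero, hu] at h2
  have h3 : ((MM T S : ℕ) : ZMod (pq j)) = 0 := by
    have := Option.some.inj h2
    simpa using this.symm
  exact (dvd_iff T S j).1 ((ZMod.natCast_eq_zero_iff _ _).1 h3)

lemma la_pos (a : ℕ) (ha : 1 ≤ a) {j : ℕ} (c : Co j) : 1 ≤ la a c := by
  unfold la
  split_ifs
  · exact ha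
  · exact le_rfl

/-- **prescribed entropies** -/
theorem joint (hr : 2 ≤ r) (a : ℕ → ℕ) (ha : ∀ j, 1 ≤ a j) (J : Finset ℕ) (h : ℕ → EReal)
    (hh : ∀ j ∈ J, h j = ⊥ ∨ ∃ x : ℝ, 0 ≤ x ∧ x ≤ Real.log (a j) ∧ h j = x) :
    ∃ S : Approx (FreeGroup (Fin r)), (∀ n g g', S.π n (g * g') = S.π n g * S.π n g') ∧
      ∀ j ∈ J, ent S (XX r (ta j) (la (a j))) = h j ∧
        entInf S (XX r (ta j) (la (a j))) = h j := by
  classical
  set T : Finset ℕ := J.filter fun j => h j ≠ ⊥ with hT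
  have ht : ∀ j, ∃ t : ℝ, 0 ≤ t ∧ t ≤ 1 ∧ (j ∈ T → h j = ((t * Real.log (a j) : ℝ) : EReal)) := by
    intro j
    by_cases hj : j ∈ T
    · obtain ⟨hj1, hj2⟩ := mem_filter.1 hj
      rcases hh j hj1 with h0 | ⟨x, hx0, hx1, hx⟩
      · exact absurd h0 hj2
      · have hl : 0 ≤ Real.log (a j) := Real.log_natCast_nonneg _
        rcases hl.eq_or_lt with h0 | h0
        · refine ⟨0, le_rfl, zero_le_one, fun _ => ?_⟩
          have : x = 0 := le_antisymm (hx1.trans h0.symm.le) hx0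
          rw [hx, this]; simp
        · refine ⟨x / Real.log (a j), by positivity, (div_le_one h0).2 hx1, fun _ => ?_⟩
          rw [hx, div_mul_cancel₀ _ h0.ne']
    · exact ⟨0, le_rfl, zero_le_one, fun h => absurd h hj⟩
  choose t ht0 ht1 ht using ht
  set Q : Finset (Finset ℕ) := J.powerset.filter fun S => 0 < Wt J t S with hQ
  let M : Q → ℕ := fun S => MM T S
  let w : Q → ℝ := fun S => Wt J t S
  have hM : ∀ p : Q, NeZero (M p) := fun p => inferInstanceAs (NeZero (MM T p))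
  have hw : ∀ p : Q, 0 < w p := fun p => (mem_filter.1 p.2).2
  have hsum : ∀ v : Finset ℕ → ℝ, ∑ p : Q, w p * v p = ∑ S ∈ J.powerset, Wt J t S * v S := by
    intro v
    rw [sum_coe_sort Q (fun S => Wt J t S * v S)]
    refine sum_filter_of_ne fun S hS hne => ?_
    refine lt_of_le_of_ne (Wt_nonneg J t ht0 ht1 S) fun h0 => hne (by rw [← h0, zero_mul])
  have h1 : ∑ p, w p = 1 := by
    have := hsum fun _ => 1
    simp only [mul_one] at this
    rw [this, Wt_sum]
  have hQn : Nonempty Q := by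
    by_contra hcon
    rw [not_nonempty_iff] at hcon
    rw [Fintype.sum_empty] at h1
    exact zero_ne_one h1
  let J' : Finset ℕ := insert 0 J
  have hJn : Nonempty J' := ⟨⟨0, mem_insert_self _ _⟩⟩
  obtain ⟨s, hs, hE⟩ := good_family (I := J' × Q)
    (fun i => ZMod (M i.2) → Co i.1.1) (fun i => fe M (ta i.1.1) i.2) hr
  have hEj : ∀ j ∈ J, ∀ ε : ℝ, 0 < ε → ∃ δ : ℝ, 0 < δ ∧ ∀ᶠ m in atTop,
      ∀ p : Q, Exp (fe M (ta j) p) ε δ m (s m) := by
    intro j hj ε hε
    obtain ⟨δ, hδ, h⟩ := hE ε hε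
    refine ⟨δ, hδ, ?_⟩
    filter_upwards [h] with m hm p
    exact hm (⟨j, mem_insert_of_mem hj⟩, p)
  refine ⟨appr M w s hw h1 hs, fun n g g' => Equiv.ext fun k => act_mul s n g g' k, fun j hj => ?_⟩
  by_cases hjT : j ∈ T
  · have hv0 : ∀ p : Q, ∑ z, Real.log (la (a j) (x0 T p j hjT z)) =
        M p * (fun p : Q => if j ∈ (p : Finset ℕ) then Real.log (a j) else 0) p := by
      intro p
      have : ∀ z : ZMod (M p), Real.log (la (a j) (x0 T p j hjT z)) =
          if j ∈ (p : Finset ℕ) then Real.log (a j) else 0 := by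
        intro z
        unfold la x0
        by_cases hjp : j ∈ (p : Finset ℕ)
        · simp [hjp]
        · simp [hjp]
      rw [sum_congr rfl fun z _ => this z, sum_const, card_univ, ZMod.card, nsmul_eq_mul]
    have hval : ((∑ p : Q, w p * (if j ∈ (p : Finset ℕ) then Real.log (a j) else 0) : ℝ) : EReal) =
        h j := by
      rw [ht j hjT]
      congr 1
      rw [hsum fun S => if j ∈ S then Real.log (a j) else 0, ← Wt_marg J t hj, sum_mul]
      refine sum_congr rfl fun S _ => ?_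
      split_ifs <;> ring
    have hvi := value_inf (M := M) (w := w) s hw h1 hs (ta j) (la (a j)) (la_pos _ (ha j))
      (fun p => if j ∈ (p : Finset ℕ) then Real.log (a j) else 0)
      (fun p => x0 T p j hjT) (fun p z => x0_step T p j hjT z) hv0
    have hv := value (M := M) (w := w) hr s hw h1 hs (ta j) (la (a j)) (la_pos _ (ha j)) (hEj j hj)
      (fun p => if j ∈ (p : Finset ℕ) then Real.log (a j) else 0)
      (fun p => x0 T p j hjT) (fun p z => x0_step T p j hjT z) hv0 ?_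
    · rw [hval] at hv hvi
      exact ⟨hv, le_antisymm ((entInf_le _ _).trans hv.le) hvi⟩
    · intro p x hx
      have : ∀ z : ZMod (M p), Real.log (la (a j) (x z)) ≤
          if j ∈ (p : Finset ℕ) then Real.log (a j) else 0 := by
        intro z
        unfold la
        by_cases hz : (x z).1.isSome
        · rw [if_pos hz, if_pos (x_fst T p j x hx z hz)]
        · rw [if_neg hz]
          split_ifs
          · simp only [Nat.cast_one, Real.log_one]
            exact Real.log_natCast_nonneg _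
          · simp
      refine (sum_le_sum fun z _ => this z).trans (le_of_eq ?_)
      rw [sum_const, card_univ, ZMod.card, nsmul_eq_mul]
  · have hb : h j = ⊥ := by
      by_contra hne
      exact hjT (mem_filter.2 ⟨hj, hne⟩)
    rw [hb]
    have hv := value_bot (M := M) (w := w) hr s hw h1 hs (ta j) (la (a j)) (hEj j hj)
      (Classical.arbitrary Q) fun x hx => hjT (x_snd T _ j x hx)
    exact ⟨hv, le_bot_iff.1 ((entInf_le _ _).trans hv.le)⟩

lemma range_ent {G A : Type} [Group G] [Finite A] (S : Approx G) (X : Set (G → A)) :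
    ent S X = ⊥ ∨ ∃ x : ℝ, 0 ≤ x ∧ ent S X = x := by
  classical
  have h1 : ent S X ≤ (Real.log (Nat.card A + 1) : ℝ) := by
    refine iInf_le_of_le ∅ (iInf_le_of_le 1 (iInf_le_of_le one_pos
      (limsup_le_of_le (by isBoundedDefault) (Eventually.of_forall fun n => ?_))))
    split_ifs with h
    · exact bot_le
    · have := S.fin n
      have l0 : 0 ≤ Real.log (Nat.card A + 1) :=
        Real.log_nonneg (by linarith [Nat.cast_nonneg (α := ℝ) (Nat.card A)])
      refine EReal.coe_le_coe_iff.2 (div_le_of_le_mul₀ (by positivity) l0 ?_)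
      rw [mul_comm, ← Real.log_pow]
      refine Real.log_le_log (by
        exact_mod_cast (Set.ncard_pos (Set.toFinite _)).2 (Set.nonempty_iff_ne_empty.2 h)) ?_
      have h2 := (Set.ncard_le_card (Om S X n ∅ 1)).trans (Nat.card_fun.le.trans
        (Nat.pow_le_pow_left (Nat.le_succ _) _))
      exact_mod_cast h2
  by_cases hb : ent S X = ⊥
  · exact Or.inl hb
  have h0 : 0 ≤ ent S X := by
    refine le_iInf fun F => le_iInf fun δ => le_iInf fun hδ => ?_
    by_cases h : ∃ᶠ n in atTop, Om S X n F δ ≠ ∅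
    · refine le_limsup_of_frequently_le (h.mono fun n hn => ?_)
      rw [if_neg hn]
      exact EReal.coe_nonneg.2 (div_nonneg (Real.log_natCast_nonneg _) (by positivity))
    · refine absurd (le_bot_iff.1 (iInf_le_of_le F (iInf_le_of_le δ (iInf_le_of_le hδ
        (limsup_le_of_le (by isBoundedDefault) ?_))))) hb
      filter_upwards [not_frequently.1 h] with n hn
      rw [if_pos (not_not.1 hn)]
  refine Or.inr ⟨(ent S X).toReal, EReal.toReal_nonneg h0, (EReal.coe_toReal ?_ hb).symm⟩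
  exact ne_top_of_le_ne_top (EReal.coe_ne_top _) h1

/-- the subshifts are not empty -/
lemma XX_nonempty (r j : ℕ) (a : ℕ) (ha : 1 ≤ a) : (XX r (ta j) (la a)).Nonempty := by
  refine ⟨fun g => ⟨(none, Multiplicative.toAdd
    (FreeGroup.lift (fun _ : Fin r => Multiplicative.ofAdd (1 : ZMod (pq' j))) g)),
    ⟨0, la_pos a ha _⟩⟩, fun g i => ?_⟩
  simp [ta, map_mul]

/-! ### the bound for all sofic approximations -/

section upper

variable {G : Type} [Group G]

/-- few points -/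
def Few (S : Approx G) (Q : ∀ n, S.K n → Prop) : Prop :=
  ∀ θ : ℝ, 0 < θ → ∀ᶠ n in atTop, (Set.ncard {k | Q n k} : ℝ) ≤ θ * Nat.card (S.K n)

lemma Few.mono {S : Approx G} {Q Q' : ∀ n, S.K n → Prop} (h : Few S Q')
    (hQ : ∀ n k, Q n k → Q' n k) : Few S Q := fun θ hθ => by
  filter_upwards [h θ hθ] with n hn
  have := S.fin n
  exact (Nat.cast_le.2 (Set.ncard_le_ncard (fun k hk => hQ n k hk) (Set.toFinite _))).trans hn

lemma Few.or {S : Approx G} {Q Q' : ∀ n, S.K n → Prop} (h : Few S Q) (h' : Few S Q') :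
    Few S fun n k => Q n k ∨ Q' n k := fun θ hθ => by
  filter_upwards [h (θ / 2) (by positivity), h' (θ / 2) (by positivity)] with n hn hn'
  have h1 : (Set.ncard {k | Q n k ∨ Q' n k} : ℝ) ≤ Set.ncard {k | Q n k} + Set.ncard {k | Q' n k} := by
    have := Set.ncard_union_le {k | Q n k} {k | Q' n k}
    exact_mod_cast this
  linarith

lemma few_of {S : Approx G} {Q : ∀ n, S.K n → Prop}
    (h : Tendsto (fun n => (Set.ncard {k | Q n k} : ℝ) / Nat.card (S.K n)) atTop (𝓝 1)) :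
    Few S fun n k => ¬ Q n k := fun θ hθ => by
  filter_upwards [h.eventually (lt_mem_nhds (show 1 - θ < 1 by linarith)),
    h.eventually (lt_mem_nhds one_pos)] with n hn hn0
  have := S.fin n
  have hk : (0 : ℝ) < Nat.card (S.K n) := by
    refine lt_of_le_of_ne (by positivity) fun h => ?_
    rw [← h] at hn0; simp at hn0
  rw [lt_div_iff₀ hk] at hn
  have h1 : Set.ncard {k | Q n k} + Set.ncard {k | Q n k}ᶜ = Nat.card (S.K n) :=
    Set.ncard_add_ncard_compl _
  have h2 := congrArg (Nat.cast (R := ℝ)) h1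
  rw [Nat.cast_add] at h2
  show (Set.ncard {k | Q n k}ᶜ : ℝ) ≤ _
  linarith

lemma few_one (S : Approx G) : Few S fun n k => S.π n 1 k ≠ k := by
  refine (few_of (S.mul 1 1)).mono fun n k hk h => hk ?_
  rw [mul_one] at h
  exact ((S.π n 1).injective h).symm

lemma few_pow (S : Approx G) (g : G) (d : ℕ) :
    Few S fun n k => S.π n (g ^ d) k ≠ ((S.π n g) ^ d) k := by
  induction d with
  | zero => exact (few_one S).mono fun n k h => by simpa using h
  | succ d ih =>
    refine ((few_of (S.mul g (g ^ d))).or ih).mono fun n k h => ?_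
    by_contra hcon
    push Not at hcon
    obtain ⟨h1, h2⟩ := hcon
    refine h ?_
    rw [pow_succ', h1, h2, pow_succ', Perm.mul_apply]

lemma few_short (S : Approx G) (g : G) (hg : ∀ d : ℕ, 1 ≤ d → g ^ d ≠ 1) (N : ℕ) :
    Few S fun n k => IsShort (S.π n g) N k := by
  induction N with
  | zero =>
    intro θ hθ
    refine Eventually.of_forall fun n => ?_
    have : {k : S.K n | IsShort (S.π n g) 0 k} = ∅ := by
      refine Set.eq_empty_of_forall_notMem fun k hk => ?_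
      obtain ⟨d, -, h, -⟩ := hk
      omega
    rw [this]
    simp only [Set.ncard_empty, Nat.cast_zero]
    positivity
  | succ N ih =>
    by_cases hN : N = 0
    · subst hN
      refine ih.mono fun n k hk => ?_
      obtain ⟨d, h1, h2, -⟩ := hk
      omega
    · refine ((ih.or (few_pow S g N)).or ((few_of (S.free (g ^ N) (hg N (by omega)))))).mono
        fun n k hk => ?_
      obtain ⟨d, h1, h2, h3⟩ := hk
      by_cases hd : d < N
      · exact Or.inl (Or.inl ⟨d, h1, hd, h3⟩)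
      · have : d = N := by omega
        subst this
        by_cases h4 : S.π n (g ^ d) k ≠ ((S.π n g) ^ d) k
        · exact Or.inl (Or.inr h4)
        · refine Or.inr fun h5 => ?_
          rw [not_not.1 h4] at h5
          exact h5 h3

lemma card_ev (S : Approx G) : ∀ᶠ n in atTop, (0 : ℝ) < Nat.card (S.K n) := by
  filter_upwards [(S.mul 1 1).eventually (lt_mem_nhds one_pos)] with n hn
  refine lt_of_le_of_ne (by positivity) fun h => ?_
  rw [← h] at hn; simp at hn

end upper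

lemma of_inv_pow (i : Fin r) (d : ℕ) (hd : 1 ≤ d) : (FreeGroup.of i)⁻¹ ^ d ≠ 1 := by
  intro h
  have h1 := congrArg (FreeGroup.lift (fun _ : Fin r => Multiplicative.ofAdd (1 : ℤ))) h
  rw [map_one (FreeGroup.lift (fun _ : Fin r => Multiplicative.ofAdd (1 : ℤ))), map_pow, map_inv,
    FreeGroup.lift_apply_of] at h1
  have h2 := congrArg Multiplicative.toAdd h1
  rw [toAdd_pow, toAdd_inv, toAdd_ofAdd, toAdd_one, nsmul_eq_mul] at h2
  omega

/-- **the bound for all sofic approximations** -/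
theorem ent_le [Nonempty C] (hr : 1 ≤ r) (S : Approx (FreeGroup (Fin r))) (τ : Perm C) (a : C → ℕ)
    (b : ℕ) (ha : ∀ c, 1 ≤ a c) (hab : ∀ c, a c ≤ b) : ent S (XX r τ a) ≤ (Real.log b : ℝ) := by
  classical
  have hb : 1 ≤ b := (ha (Classical.arbitrary C)).trans (hab _)
  have hb' : (1 : ℝ) ≤ b := by exact_mod_cast hb
  refine EReal.le_of_forall_lt_iff_le.1 fun z hz => ?_
  have hz' := EReal.coe_lt_coe_iff.1 hz
  set η := (z - Real.log b) / 2 with hη
  have η0 : 0 < η := by linarith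
  obtain ⟨ε, ε0, hcount⟩ := count (Fintype.card (Σ c : C, Fin (a c))) η η0
  have hC0 : 0 ≤ Real.log (Fintype.card C) := Real.log_natCast_nonneg _
  obtain ⟨N, hN⟩ := exists_nat_gt (Real.log (Fintype.card C) / η)
  have hN1 : 1 ≤ N + 1 := by omega
  set i : Fin r := ⟨0, hr⟩ with hi
  set g : FreeGroup (Fin r) := (FreeGroup.of i)⁻¹ with hg
  set θ : ℝ := ε / (4 * (N + 1) + 3) with hθ
  have θ0 : 0 < θ := by positivity
  refine iInf_le_of_le {1, FreeGroup.of i} (iInf_le_of_le θ (iInf_le_of_le θ0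
    (limsup_le_of_le (by isBoundedDefault) ?_)))
  filter_upwards [few_short S g (of_inv_pow i) (N + 1) θ θ0, few_one S θ θ0, card_ev S]
    with n hsh hone hk
  have hfin := S.fin n
  let _ : Fintype (S.K n) := Fintype.ofFinite _
  split_ifs with hem
  · exact bot_le
  obtain ⟨F, hF1, hF2⟩ := code (S.π n g) τ (N + 1) hN1
  set A := Σ c : C, Fin (a c) with hA
  set T : (S.K n → C) → S.K n → Finset A := fun κ k => univ.filter fun y => y.1 = κ k with hT
  have sub : Om S (XX r τ a) n {1, FreeGroup.of i} θ ⊆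
      ⋃ κ ∈ F, {ω : S.K n → A | (#{k | ω k ∉ T κ k} : ℝ) ≤ ε * Fintype.card (S.K n)} := by
    intro ω hω
    change (1 - θ) * (Nat.card (S.K n) : ℝ) ≤ _ at hω
    obtain ⟨κ', hκ, hle⟩ := hF2 fun k => (ω k).1
    have h1 : (#{k | (ω (S.π n g k)).1 ≠ τ (ω k).1} : ℝ) ≤ 2 * θ * Nat.card (S.K n) := by
      have e1 : (#{k | (ω (S.π n g k)).1 ≠ τ (ω k).1} : ℝ) ≤
          (Set.ncard {k : S.K n | ∃ x ∈ XX r τ a, ∀ s ∈ ({1, FreeGroup.of i} : Finset _),
            ω (S.π n s⁻¹ k) = x s}ᶜ : ℝ) + (Set.ncard {k | S.π n 1 k ≠ k} : ℝ) := by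
        rw [← nc]
        have e2 := Set.ncard_union_le ({k : S.K n | ∃ x ∈ XX r τ a,
          ∀ s ∈ ({1, FreeGroup.of i} : Finset _), ω (S.π n s⁻¹ k) = x s}ᶜ) {k | S.π n 1 k ≠ k}
        refine le_trans (Nat.cast_le.2 (le_trans (Set.ncard_le_ncard ?_ (Set.toFinite _)) e2))
          (by push_cast; exact le_rfl)
        intro k hk
        by_contra hcon
        rw [Set.mem_union, not_or, Set.mem_compl_iff, not_not] at hcon
        obtain ⟨⟨x, hx, h2⟩, h3⟩ := hcon
        have h3' : S.π n 1 k = k := not_not.1 h3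
        have b1 := h2 1 (by simp)
        have b2 := h2 (FreeGroup.of i) (by simp)
        rw [inv_one, h3'] at b1
        refine hk ?_
        show (ω (S.π n (FreeGroup.of i)⁻¹ k)).1 = τ (ω k).1
        rw [b1, b2]
        simpa using hx 1 i
      have e3 := Set.ncard_add_ncard_compl {k : S.K n | ∃ x ∈ XX r τ a,
        ∀ s ∈ ({1, FreeGroup.of i} : Finset _), ω (S.π n s⁻¹ k) = x s}
      have e4 := congrArg (Nat.cast (R := ℝ)) e3
      rw [Nat.cast_add] at e4
      linarith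
    have h2 : (#{k | IsShort (S.π n g) (N + 1) k} : ℝ) ≤ θ * Nat.card (S.K n) := by
      rw [← nc]; exact hsh
    have h3 : (#{k | (ω k).1 ≠ κ' k} : ℝ) ≤ ε * Fintype.card (S.K n) := by
      have hle' : #{k | (ω k).1 ≠ κ' k} ≤ #{k | IsShort (S.π n g) (N + 1) k} +
          (2 * (N + 1) + 1) * #{k | (ω (S.π n g k)).1 ≠ τ (ω k).1} := by
        convert hle
      refine ((Nat.cast_le (α := ℝ)).2 hle').trans ?_
      rw [← Nat.card_eq_fintype_card]
      push_cast
      have h4 : (2 * ((N : ℝ) + 1) + 1) * (#{k | (ω (S.π n g k)).1 ≠ τ (ω k).1} : ℝ) ≤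
          (2 * ((N : ℝ) + 1) + 1) * (2 * θ * Nat.card (S.K n)) :=
        mul_le_mul_of_nonneg_left h1 (by positivity)
      have h5 : ε = θ * (4 * (N + 1) + 3) := by rw [hθ]; field_simp
      rw [h5]
      nlinarith
    refine Set.mem_iUnion₂.2 ⟨κ', hκ, ?_⟩
    refine Set.mem_ofPred_eq.symm ▸ ?_
    convert h3
    simp [hT]
  have each : ∀ κ ∈ F, (({ω : S.K n → A |
      (#{k | ω k ∉ T κ k} : ℝ) ≤ ε * Fintype.card (S.K n)} : Set _).ncard : ℝ) ≤
      Real.exp (η * Nat.card (S.K n)) * (b : ℝ) ^ Nat.card (S.K n) := by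
    intro κ _
    refine (Nat.cast_le.2 (nc (K := S.K n → A) _).le).trans ?_
    refine (hcount (S.K n) A (T κ) (fun _ => (b : ℝ)) le_rfl ?_).trans ?_
    · intro k
      refine ⟨hb', ?_⟩
      exact_mod_cast (card_fib a (κ k)).trans (hab _)
    · rw [prod_const, card_univ, ← Nat.card_eq_fintype_card]
  have up : ((Om S (XX r τ a) n {1, FreeGroup.of i} θ).ncard : ℝ) ≤
      (Fintype.card C : ℝ) ^ ((Nat.card (S.K n) : ℝ) / ((N + 1 : ℕ) : ℝ)) *
        (Real.exp (η * Nat.card (S.K n)) * (b : ℝ) ^ Nat.card (S.K n)) := by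
    have u1 := (Set.ncard_le_ncard sub (Set.toFinite (α := S.K n → A) _)).trans
      (Finset.set_ncard_biUnion_le F _)
    refine ((Nat.cast_le (α := ℝ)).2 u1).trans ?_
    rw [Nat.cast_sum]
    refine (sum_le_card_nsmul _ _ _ each).trans ?_
    rw [nsmul_eq_mul]
    refine mul_le_mul_of_nonneg_right ?_ (by positivity)
    rw [Nat.card_eq_fintype_card]
    exact hF1
  rw [EReal.coe_le_coe_iff]
  have hC1 : (0 : ℝ) < Fintype.card C := by exact_mod_cast Fintype.card_pos
  have hpos : (0 : ℝ) < (Om S (XX r τ a) n {1, FreeGroup.of i} θ).ncard := by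
    exact_mod_cast (Set.ncard_pos (Set.toFinite (α := S.K n → A) _)).2
      (Set.nonempty_iff_ne_empty.2 hem)
  have h4 := Real.log_le_log hpos up
  rw [Real.log_mul (by positivity) (by positivity), Real.log_mul (by positivity) (by positivity),
    Real.log_exp, Real.log_pow, Real.log_rpow hC1] at h4
  rw [div_le_iff₀ hk]
  refine h4.trans ?_
  have h6 : Real.log (Fintype.card C) / ((N + 1 : ℕ) : ℝ) ≤ η := by
    rw [div_lt_iff₀ η0] at hN
    rw [div_le_iff₀ (by positivity)]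
    push_cast
    nlinarith
  have h7 : (Nat.card (S.K n) : ℝ) / ((N + 1 : ℕ) : ℝ) * Real.log (Fintype.card C) ≤
      η * Nat.card (S.K n) := by
    calc _ = Real.log (Fintype.card C) / ((N + 1 : ℕ) : ℝ) * Nat.card (S.K n) := by ring
      _ ≤ _ := mul_le_mul_of_nonneg_right h6 hk.le
  have : z = Real.log b + 2 * η := by rw [hη]; ring
  rw [this]
  linarith

/-- the change of colour is a bijection -/
noncomputable def taP (j : ℕ) : Perm (Co j) :=
  prodCongr (Equiv.optionCongr (Equiv.addRight 1)) (Equiv.addRight 1)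

lemma taP_eq (j : ℕ) : (taP j : Co j → Co j) = ta j := by
  funext c
  simp [taP, ta, Prod.map]

/-- the bound for the subshifts -/
theorem ent_mem (hr : 1 ≤ r) (S : Approx (FreeGroup (Fin r))) (j a : ℕ) (ha : 1 ≤ a) :
    ent S (XX r (ta j) (la a)) = ⊥ ∨ ∃ x : ℝ, 0 ≤ x ∧ x ≤ Real.log a ∧
      ent S (XX r (ta j) (la a)) = x := by
  rcases range_ent S (XX r (ta j) (la a)) with h | ⟨x, hx0, hx⟩
  · exact Or.inl h
  · refine Or.inr ⟨x, hx0, ?_, hx⟩
    have h1 := ent_le hr S (taP j) (la a) a (la_pos a ha) fun c => by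
      unfold la
      split_ifs
      · exact le_rfl
      · exact ha
    rw [taP_eq, hx] at h1
    exact EReal.coe_le_coe_iff.1 h1

end Pool.Agent.H7.SE
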